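import Mathlib
import Pool.Agent.Lib.MP_77e77d_ag.Defs
import Pool.Agent.Lib.MP_77e77d_ag.HopfMain

set_option autoImplicit false

namespace Pool.Agent.Results.MP_77e77d_ag.HopfFivefold

open scoped Manifold ContDiff
open Pool.Agent.Lib.MP_77e77d_ag

/-- A compact connected complex fivefold with a nowhere vanishing holomorphic Poisson structure
whose rank two locus is a nonempty complex submanifold of dimension two. -/
theorem result :
    ∃ (X : Type) (_ : TopologicalSpace X) (_ : T2Space X) (_ : CompactSpace X)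
      (_ : ConnectedSpace X) (_ : ChartedSpace (Fin 5 → ℂ) X)
      (_ : IsManifold 𝓘(ℂ, Fin 5 → ℂ) ω X) (τ : SharpField (Fin 5 → ℂ) X),
      IsHolPoisson τ ∧ rankLocus τ 0 = ∅ ∧ (rankLocus τ 2).Nonempty ∧
        ∀ x ∈ rankLocus τ 2, IsSubmanifoldAt (Fin 5 → ℂ) 2 (rankLocus τ 2) x :=
  hopf_main

end Pool.Agent.Results.MP_77e77d_ag.HopfFivefold
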