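import Mathlib
import Pool.Agent.Lib.MP_77e77d_ag.Defs
import Pool.Agent.Lib.MP_77e77d_ag.ProjMain

set_option autoImplicit false

namespace Pool.Agent.Results.MP_77e77d_ag.ProjectiveFivespace

open scoped Manifold ContDiff
open Pool.Agent.Lib.MP_77e77d_ag

/-- The complex manifold `X`, modelled on `E`, is the projective space of `V`: there is a
holomorphic map from `V ∖ 0` onto `X` whose fibres are the punctured complex lines. -/
def IsProjectiveSpaceOf (V : Type) [NormedAddCommGroup V] [NormedSpace ℂ V]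
    (E : Type) [NormedAddCommGroup E] [NormedSpace ℂ E]
    (X : Type) [TopologicalSpace X] [ChartedSpace E X] : Prop :=
  ∃ q : V → X, ContMDiffOn 𝓘(ℂ, V) 𝓘(ℂ, E) ω q {0}ᶜ ∧ (∀ x : X, ∃ v : V, v ≠ 0 ∧ q v = x) ∧
    ∀ v w : V, v ≠ 0 → w ≠ 0 → (q v = q w ↔ ∃ c : ℂ, w = c • v)

/-- Complex projective five-space carries a holomorphic Poisson structure whose rank two locus is
a nonempty complex submanifold of dimension two. -/
theorem result :
    ∃ (X : Type) (_ : TopologicalSpace X) (_ : T2Space X) (_ : CompactSpace X)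
      (_ : ConnectedSpace X) (_ : ChartedSpace (Fin 5 → ℂ) X)
      (_ : IsManifold 𝓘(ℂ, Fin 5 → ℂ) ω X) (τ : SharpField (Fin 5 → ℂ) X),
      IsProjectiveSpaceOf (Fin 6 → ℂ) (Fin 5 → ℂ) X ∧
      IsHolPoisson τ ∧ (rankLocus τ 2).Nonempty ∧
        ∀ x ∈ rankLocus τ 2, IsSubmanifoldAt (Fin 5 → ℂ) 2 (rankLocus τ 2) x := by
  obtain ⟨τ, h1, h2, h3⟩ := proj_main
  exact ⟨PS 5, inferInstance, inferInstance, inferInstance, inferInstance, inferInstance,
    inferInstance, τ, ⟨pr 5, fun v hv => (contMDiffAt_pr hv).contMDiffWithinAt, pr_surj,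
      fun _ _ hv hw => pr_eq_iff hv hw⟩, h1, h2, h3⟩

end Pool.Agent.Results.MP_77e77d_ag.ProjectiveFivespace
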